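import Pool.Agent.Run7.h681.ER.Final
import Pool.Agent.Run7.h681.ER.Surv

/-!
# A right transient excited random walk with `μ = θ = 1`

The answer to Q1 is yes.  The environment is `p_i = 1/2 + (A i - A (i-1))`, where
`A n = 1/2 + 2 / log (n + 2)` for `n ≥ 100` and `A` is linear on `[0, 100]` with `A 0 = 0`: a hundred
cookies with a small drift to the right are followed by infinitely many cookies with a tiny drift
to the left.  All `p_i` lie in `[49/100, 51/100]`, the drifts are absolutely summable and their
sum is exactly `1`.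

Since `ρ(x) = E[2 A (T_x)]`, where `T_x ≈ 2 x` is the number of trials up to the `x`-th failure, one has
`θ(x) - 1 ≈ 4 / log x`, more than the `2 / log x` needed for transience.  The proof is complete: the
chain of upcrossings to the right of a site survives with positive probability (Lyapunov function
`1 / log (x + 3)`), the chains of downcrossings to the left of the origin die out.

Definitions (`Pool.Agent.N276.ER.Def`): `stackLaw p` is the law of independent trials `s 0, s 1, …` with
`P (s i = true) = p i`; `fails s n` is the number of failures among the first `n` trials; `U x s` is the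
number of successes before the `x`-th failure; `IsERW p P X` says that `X` is an excited random walk
in the identically piled environment `p`, where `p i` belongs to the `(i+1)`-st visit.
-/

set_option autoImplicit false

open MeasureTheory ProbabilityTheory Filter Topology Set

namespace Pool.Agent.Results.MP_758450_pr.CriticalTransient

open Pool.Agent.N276.ER

/-- `ρ(x) = E[U(x) - μ x]` for `μ = 1` -/
noncomputable def rho (p : ℕ → ℝ) (x : ℕ) : ℝ := ∫ s, ((U x s : ℝ) - x) ∂(stackLaw p)

/-- `ν(x) = E[(U(x) - μ x)²] / x` for `μ = 1` -/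
noncomputable def nu (p : ℕ → ℝ) (x : ℕ) : ℝ := (∫ s, ((U x s : ℝ) - x) ^ 2 ∂(stackLaw p)) / x

/-- There is an identically piled, uniformly elliptic environment `p` with `μ = 1`, `θ = 1` such that
every excited random walk in `p` is right transient (and there is such a walk).  Moreover `ρ(x)`
tends to `1`, `ν(x)` tends to `2`, and the drifts `2 p i - 1` are absolutely summable with sum `1`. -/
theorem result.{u} : ∃ p : ℕ → ℝ,
    -- uniformly elliptic
    (∃ ε : ℝ, 0 < ε ∧ ∀ i, ε ≤ p i ∧ p i ≤ 1 - ε) ∧
    -- the variables `U x` are well defined and have second moments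
    (∀ᵐ s ∂(stackLaw p), ∀ x, ∃ n, x ≤ fails s n) ∧
    (∀ x, Integrable (fun s => (U x s : ℝ)) (stackLaw p) ∧
      Integrable (fun s => (U x s : ℝ) ^ 2) (stackLaw p)) ∧
    -- `μ = 1`
    Tendsto (fun x : ℕ => (∫ s, (U x s : ℝ) ∂(stackLaw p)) / x) atTop (𝓝 1) ∧
    -- `ρ → 1`, `ν → 2` and `θ = 1`
    Tendsto (rho p) atTop (𝓝 1) ∧ Tendsto (nu p) atTop (𝓝 2) ∧
    Tendsto (fun x : ℕ => 2 * rho p x / nu p x) atTop (𝓝 1) ∧
    -- the total drift
    Summable (fun i => |2 * p i - 1|) ∧ HasSum (fun i => 2 * p i - 1) 1 ∧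
    -- the walk exists and every such walk is right transient
    (∃ (Ω : Type) (_ : MeasurableSpace Ω) (P : Measure Ω) (X : ℕ → Ω → ℤ), IsERW p P X) ∧
    ∀ (Ω : Type u) (_ : MeasurableSpace Ω) (P : Measure Ω) (X : ℕ → Ω → ℤ), IsERW p P X →
      ∀ᵐ ω ∂P, Tendsto (fun n => X n ω) atTop atTop := by
  refine ⟨pp, ⟨49 / 100, by norm_num, fun i => ?_⟩, ?_, fun x => ?_, ?_, ?_, ?_, ?_,
    Run7.h681.ER.summ, Run7.h681.ER.hsum, ?_, ?_⟩
  · have := Run7.h681.ER.bb i
    constructor <;> linarith [this.1, this.2]
  · filter_upwards [Run7.h681.ER.inf] with s hs x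
    exact Run7.h681.ER.fin_good hs x
  · obtain ⟨h1, h2, -⟩ := Run7.h681.ER.wald' pp Run7.h681.ER.bb x
    exact ⟨h1, h2⟩
  · exact (Run7.h681.ER.lim Run7.h681.ER.mom2').1
  · exact (Run7.h681.ER.lim Run7.h681.ER.mom2').2.1
  · exact (Run7.h681.ER.lim Run7.h681.ER.mom2').2.2
  · exact Run7.h681.ER.theta_lim
  · exact ⟨ℤ → ℕ → Bool, inferInstance, QQ, fun n ω => X ω n, Run7.h681.ER.law'⟩
  · intro Ω _ P X' h
    exact Run7.h681.ER.transfer pp (ℤ → ℕ → Bool) inferInstance QQ (fun n ω => X ω n) Ω _ P X'
      Run7.h681.ER.law' h (Run7.h681.ER.transient Run7.h681.ER.surv)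

end Pool.Agent.Results.MP_758450_pr.CriticalTransient
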